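import Pool.Agent.Work.MP_563a32_gt.SB

/-! The least dilatation of pseudo-Anosov maps on surfaces with many punctures, up to a bounded
additive error in `n` times its logarithm. -/

namespace Pool.Agent.Work.MP_563a32_gt.Parked.SharpPunctures
open Pool.Agent.Work.MP_563a32_gt

theorem result (g n : ℕ) (hg : 2 ≤ g) (hn : 400 * g ≤ n) :
    (∀ l ∈ Spectrum g n, Real.log ((n : ℝ) / g / Real.log ((n : ℝ) / g)) - 10 ≤ n * l) ∧
      ∀ k : ℕ, k ∣ g - 1 → Nat.Coprime k n →
        ∃ l ∈ Spectrum g n, n * l ≤ Real.log ((n : ℝ) / k / Real.log ((n : ℝ) / k)) + 2 :=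
  ⟨fun _ hl => second_lower hg hn hl, fun _ hd hc => second_upper hg hn hd hc⟩

end Pool.Agent.Work.MP_563a32_gt.Parked.SharpPunctures
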